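import Pool.Agent.Work.BCM.C44

set_option autoImplicit false

/-!
Let `D : w² = q(t)` be a curve over `ℚ`, `q ∈ ℤ[T]` squarefree of even degree `m ≥ 2`, with points over
all completions of `ℚ`. The curves `y² = f(t)`, `w² = q(t)`, the double covers of `D` given by the
polynomials `f ∈ ℤ[T]` of even degree `n ≥ 4`, ordered by the size of the coefficients of `f`: a
positive proportion is smooth and everywhere locally soluble, and almost all have, over all number
fields of odd degree simultaneously, no point and an empty Selmer set for the classes of `t - θ` and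
`t - ρ`.
-/

namespace Pool.Agent.Results.MP_308fa9_nt.DoubleCovers

open Stoll308 Polynomial

theorem result (n m : ℕ) (hn : 4 ≤ n) (he : Even n) (hm : 2 ≤ m) (hem : Even m)
    (b : Fin (m + 1) → ℤ) (h0 : b 0 ≠ 0) (hsq : Squarefree (BF.GZ ℚ b)) (hloc : FQ.BaseELS b) :
    (∃ c₀ : ℝ, 0 < c₀ ∧ ∃ H₀ : ℕ, ∀ H : ℕ, H₀ ≤ H →
      c₀ * H ^ (n + 1) ≤ (BF.cnt n (fun a => DQ.ELS a b ∧ DQ.Smooth a b) H : ℝ)) ∧
    ∀ ε : ℝ, 0 < ε → ∃ H₀ : ℕ, ∀ H : ℕ, H₀ ≤ H →
      (BF.cnt n (fun a => DQ.OddField a b) H : ℝ) ≤ ε * H ^ (n + 1) :=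
  Stoll308.FQ.main n m hn he hm hem b h0 hsq hloc

end Pool.Agent.Results.MP_308fa9_nt.DoubleCovers
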