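import Pool.Agent.Work.BCM.C46

set_option autoImplicit false

/-!
The curves `w_j² = ∏_{i ∈ R_j} g_i(t)`, `j < r`, over `ℚ`, with `s ≥ 2` polynomials `g_i` of even
degrees `n_i ≥ 4`, ordered by the size of the coefficients of the `g_i`: a positive proportion is
smooth and everywhere locally soluble, and almost all have an empty Selmer set for the classes of the
`t - θ_i` modulo scalars, and no rational point.
-/

namespace Pool.Agent.Results.MP_308fa9_nt.ElementaryAbelianCovers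

open Stoll308.EA

theorem result {r s : ℕ} (hs : 2 ≤ s) (n : Fin s → ℕ) (hn : ∀ i, 4 ≤ n i)
    (he : ∀ i, Even (n i)) (R : Fin r → Finset (Fin s)) (hR : Sep R) :
    (∃ c₀ : ℝ, 0 < c₀ ∧ ∃ H₀ : ℕ, ∀ H : ℕ, H₀ ≤ H →
      c₀ * H ^ ∑ i, (n i + 1) ≤ (cnt n (fun a => Smooth a ∧ ELS R a) H : ℝ)) ∧
    ∀ ε : ℝ, 0 < ε → ∃ H₀ : ℕ, ∀ H : ℕ, H₀ ≤ H →
      (cnt n (fun a => HasPoint R a ℚ ∨ Sel R a) H : ℝ) ≤ ε * H ^ ∑ i, (n i + 1) :=
  Stoll308.EA.main hs n hn he R hR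

end Pool.Agent.Results.MP_308fa9_nt.ElementaryAbelianCovers
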