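import Pool.Agent.Work.MP_308fa9_nt.CN.Final

/-!
# MP_308fa9_nt: plane quartics `w⁴ = (t² - a)² - 4 (b t + c)` and elliptic divisibility sequences

Let `E : y² + b y = x³ + a x² + c x`, `Q₀ = (0,0)`, `C : w⁴ = F(t) = (t² - a)² - 4 (b t + c)` and
`f : C → E` the morphism of degree 2, `f(t,w) = (x, t x - b)`, `x = (t² - a - w²)/2`.
The theorem: over every number field `K` of odd degree, the adelic points (finite places) of `C` whose image is
in the closure of `ℤ·Q₀` are the `K`-rational points `[1 : ±1 : 0]` (placewise).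
-/

set_option autoImplicit false

namespace Pool.Agent.Results.MP_308fa9_nt.EllipticDivisibility

open NumberField IsDedekindDomain MP308.CG

/-- Let `K` be a number field of odd degree, `b` odd, `c` even, `gcd(b,c) = 1`, `c² - a b² ≡ 3 mod 8`, `F > 0` on
`ℝ`, and let `P_v ∈ C(K_v)` for all finite places `v` of `K`. The point `(f(P_v))_v` is in the closure of
`ℤ·Q₀` in `∏_v E(K_v)` if and only if every `P_v` is `[1:1:0]` or `[1:-1:0]`. -/
theorem result (K : Type*) [Field K] [NumberField K] (hK : Odd (Module.finrank ℚ K))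
    (a b c : ℤ) (hb : Odd b) (hc : Even c) (hbc : IsCoprime b c)
    (hD : (c ^ 2 - a * b ^ 2) % 8 = 3)
    (hF : ∀ t : ℝ, 0 < (t ^ 2 - a) ^ 2 - 4 * (b * t + c))
    (P : ∀ v : HeightOneSpectrum (𝓞 K), CPt (v.adicCompletion K) a b c) :
    InClosureK K a c hb (fun v => f hb (P v)) ↔
      ∀ v : HeightOneSpectrum (𝓞 K), ∃ (ε : v.adicCompletion K) (hε : ε ^ 4 = 1),
        P v = .inf ε hε ∧ (ε = 1 ∨ ε = -1) :=
  mainK K hK a b c hb hc hbc hD hF P

end Pool.Agent.Results.MP_308fa9_nt.EllipticDivisibility
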