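import Pool.Agent.Work.MP_308fa9_nt.Gen.IrrDefs
import Pool.Agent.Work.BCM.C46

set_option autoImplicit false

/-!
Quadratic twists of a hyperelliptic curve `y² = F(x)` of genus at least two over `ℚ` without
rational Weierstrass points: 100 percent of the everywhere locally soluble ones have an empty fake
`2`-Selmer set and no rational point. The only curves excluded are those with
`F = c · N_{K/ℚ}(G)`, `K` a quadratic field, `G ∈ K[x]` with a root in `K`.
-/

namespace Pool.Agent.Results.MP_308fa9_nt.QuadraticTwists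

open Polynomial Stoll308.Irr

theorem result (F : ℤ[X]) (hsep : (F.map (Int.castRingHom ℚ)).Separable)
    (h2 : ∀ g : ℚ[X], Irreducible g → g ∣ F.map (Int.castRingHom ℚ) → 2 ≤ g.natDegree)
    (hq : ∀ q : ℚ[X], Irreducible q → q ∣ F.map (Int.castRingHom ℚ) → q.natDegree = 2 →
      ∃ g : ℚ[X], Irreducible g ∧ g ∣ F.map (Int.castRingHom ℚ) ∧
        ∀ z : AdjoinRoot g, aeval z q ≠ 0)
    (hev : Even F.natDegree) (h6 : 6 ≤ F.natDegree) :
    (∃ c : ℝ, 0 < c ∧ ∃ X₀ : ℕ, ∀ X : ℕ, X₀ ≤ X →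
      c * X / Real.log X ≤ (cnt (ELS F) X : ℝ)) ∧
    (∃ c C : ℝ, 0 < c ∧ ∃ X₀ : ℕ, ∀ X : ℕ, X₀ ≤ X →
      (cnt (fun t => FakeSel F t ∨ HasPoint F t ℚ) X : ℝ) ≤
        C * Real.log X ^ (-c) * cnt (ELS F) X) :=
  Stoll308.TW.main2 F hsep h2 hq hev h6

end Pool.Agent.Results.MP_308fa9_nt.QuadraticTwists
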